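import Pool.Agent.Lib.MP_779fbc_ag.Final

/-!
# MP_779fbc_ag, Q1: the answer is NO

There is an irreducible algebraic curve `W` in the stratum `S_(2)` of abelian differentials (genus two,
one double zero) whose arithmetic points are Zariski dense in `W`, and which is not bi-algebraic (so it is
not `ℚ̄`-bi-algebraic either).

`W` is the curve of the pairs `(y² = w (w² - 1) (w² - s w + 1), [dw / y])`. With `s = m + 1/m`, `m = 2 k k'`,
`k² + k'² = 1`, the Jacobian is isogenous to `E_k × E_k`, `E_k : η² = ξ (ξ - k'²) (ξ + k²)`, and the periods
of `dw / y` are spanned by `k' K, k' K', k K, k K'`. If `E_k` has complex multiplication, then all of them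
are algebraic multiples of one number. But `K' / K` is not an algebraic function of `k`, so that the
period image of `W` is Zariski dense in a surface.
-/

namespace Pool.Agent.Results.MP_779fbc_ag.NotAndreOort

open Pool.Agent.AO

theorem result :
    ∃ W : Set (Fin 4 → ℂ), IsSubvariety W ∧ ArithmeticDense W ∧ ¬ IsBialgebraic W :=
  fin_result

end Pool.Agent.Results.MP_779fbc_ag.NotAndreOort
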